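import Pool.Agent.Helper5.FS.Stmts

set_option autoImplicit false

open Finset

namespace Pool.Agent.Helper5.FS

theorem st_MG2 : ST_MG2 := by
  refine ⟨?_, ?_, ?_, ?_⟩
  · intro n P Q A B C h hC hA hB D hD
    rw [mg, mem_insert] at hD
    rcases hD with rfl | hD
    · exact ⟨C, hC, union_subset hA hB⟩
    · exact h D (mem_of_mem_erase (mem_of_mem_erase hD))
  · intro n P A B D hD
    by_cases h1 : D = A
    · exact ⟨A ∪ B, mem_insert_self _ _, h1 ▸ subset_union_left⟩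
    · by_cases h2 : D = B
      · exact ⟨A ∪ B, mem_insert_self _ _, h2 ▸ subset_union_right⟩
      · exact ⟨D, mem_insert_of_mem (mem_erase.2 ⟨h2, mem_erase.2 ⟨h1, hD⟩⟩), Subset.refl _⟩
  · intro n P Q R h1 h2 B hB
    obtain ⟨C, hC, hBC⟩ := h1 B hB
    obtain ⟨D, hD, hCD⟩ := h2 C hC
    exact ⟨D, hD, hBC.trans hCD⟩
  · intro n E P Q h1 h2 B hB e he heB
    obtain ⟨C, hC, hBC⟩ := h1 B hB
    exact h2 C hC e he (heB.trans hBC)

end Pool.Agent.Helper5.FS
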