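import Pool.Agent.Helper97.FS.Stmts
import Pool.Agent.Helper51.FS.NZ

set_option autoImplicit false

namespace Pool.Agent.Helper97.FS

open Finset MeasureTheory Filter Topology UnitAddTorus
open scoped ComplexConjugate
open Pool.Agent.Helper97.Sub
open Pool.Agent.Helper51.FS (FT FT_apply coeff_def L2T ell2)

theorem fib_norm {s : ℕ} (x : Fin s → ℤ) (η : UnitAddTorus (Fin s)) : ‖mFourier x η‖ = 1 := by
  simp only [mFourier, ContinuousMap.coe_mk, fourier_apply, norm_prod, Circle.norm_coe,
    Finset.prod_const_one]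

theorem fib_mem {s : ℕ} (x : Fin s → ℤ) {f : UnitAddTorus (Fin s) → ℂ}
    (hf : MemLp f 2 (tor s)) : MemLp (fun η => mFourier x η * f η) 2 (tor s) := by
  refine hf.of_le (((mFourier x).continuous.aestronglyMeasurable).mul hf.1)
    (Eventually.of_forall fun η => ?_)
  rw [norm_mul, fib_norm, one_mul]

theorem fib_int {s : ℕ} {f : UnitAddTorus (Fin s) → ℂ} (hf : MemLp f 2 (tor s)) :
    Integrable f (tor s) := hf.integrable (by norm_num)

/-- A square integrable function with prescribed coefficients. -/
theorem fib_ex {s : ℕ} (c : (Fin s → ℤ) → ℂ) (C : ℝ)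
    (hc : ∀ S : Finset (Fin s → ℤ), ∑ x ∈ S, ‖c x‖ ^ 2 ≤ C) :
    ∃ f : UnitAddTorus (Fin s) → ℂ, MemLp f 2 (tor s) ∧
      ∀ x, ∫ η, mFourier x η * f η ∂(tor s) = c x := by
  have h1 : Summable fun x => ‖c x‖ ^ 2 :=
    summable_of_sum_le (fun x => by positivity) hc
  have h2 : Summable fun x => ‖c (-x)‖ ^ 2 := by
    have := h1.comp_injective (i := fun x : Fin s → ℤ => -x) neg_injective
    exact this
  have h3 : Memℓp (fun x => c (-x)) 2 := by
    rw [memℓp_gen_iff (by norm_num)]
    simpa using h2
  refine ⟨((FT s).symm ⟨fun x => c (-x), h3⟩ : L2T s), Lp.memLp _, fun x => ?_⟩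
  have h4 := FT_apply ((FT s).symm ⟨fun x => c (-x), h3⟩) (-x)
  rw [LinearIsometryEquiv.apply_symm_apply, coeff_def] at h4
  simp only [neg_neg, smul_eq_mul] at h4
  rw [← h4]

/-- A square integrable function with zero coefficients vanishes. -/
theorem fib_zero {s : ℕ} {f : UnitAddTorus (Fin s) → ℂ} (hf : MemLp f 2 (tor s))
    (h : ∀ x, ∫ η, mFourier x η * f η ∂(tor s) = 0) : ∀ᵐ η ∂(tor s), f η = 0 := by
  have h1 : FT s (hf.toLp f) = 0 := by
    ext m
    rw [FT_apply, coeff_def]
    have h2 : ∫ t, mFourier (-m) t • (hf.toLp f : UnitAddTorus (Fin s) → ℂ) t ∂(tor s) =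
        ∫ t, mFourier (-m) t * f t ∂(tor s) := by
      refine integral_congr_ae ?_
      filter_upwards [hf.coeFn_toLp] with t ht
      rw [ht, smul_eq_mul]
    exact h2.trans (h (-m))
  have h3 : hf.toLp f = 0 := by
    have := congrArg (FT s).symm h1
    simpa using this
  have h4 := hf.coeFn_toLp
  rw [h3] at h4
  filter_upwards [h4, Lp.coeFn_zero ℂ 2 (tor s)] with t ht1 ht2
  rw [← ht1, ht2]; rfl

theorem fib_fin {d : ℕ} {L : Fin d → ℝ} {gam : Fin d → Fin d → (Fin d → ℤ) → ℝ}
    (hg : GamF L gam) (R : ℝ) :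
    {j : Fin d → ℤ | |len L j| ≤ R ∧ ∃ a b, gam a b j ≠ 0}.Finite := by
  classical
  by_cases hd : Nonempty (Fin d)
  · obtain ⟨a0, ha0⟩ := Finite.exists_min L
    have hl := hg.Lpos a0
    set N : ℤ := ⌈R / L a0⌉ with hN
    refine (Set.Finite.pi' (t := fun _ : Fin d => Set.Icc (-N) N)
      (fun _ => Set.finite_Icc _ _)).subset ?_
    rintro j ⟨h1, a, b, h2⟩ i
    have key : ∀ j' : Fin d → ℤ, 0 ≤ j' → |len L j'| ≤ R → ∀ i, j' i ≤ N := by
      intro j' hj hR i
      have h3 : L a0 * (j' i : ℝ) ≤ len L j' := by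
        unfold len
        have h0 : ∀ a, 0 ≤ (j' a : ℝ) := fun a => by exact_mod_cast hj a
        calc L a0 * (j' i : ℝ) ≤ L i * (j' i : ℝ) :=
              mul_le_mul_of_nonneg_right (ha0 i) (h0 i)
          _ ≤ ∑ a, L a * (j' a : ℝ) :=
              Finset.single_le_sum (f := fun a => L a * (j' a : ℝ))
                (fun a _ => mul_nonneg (hg.Lpos a).le (h0 a)) (Finset.mem_univ i)
      have h4 : L a0 * (j' i : ℝ) ≤ R := h3.trans ((le_abs_self _).trans hR)
      have h5 : (j' i : ℝ) ≤ R / L a0 := by
        rw [le_div_iff₀ hl]; linarith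
      have h6 : (j' i : ℝ) ≤ (N : ℝ) := h5.trans (Int.le_ceil _)
      exact_mod_cast h6
    have hneg : len L (-j) = - len L j := by
      unfold len
      rw [← Finset.sum_neg_distrib]
      refine Finset.sum_congr rfl fun a _ => ?_
      simp
    rcases hg.supp a b j h2 with hj | hj
    · have h3 := key j hj h1 i
      have h4 : 0 ≤ j i := hj i
      exact ⟨by linarith, h3⟩
    · have h3 := key (-j) (by simpa using hj) (by rw [hneg, abs_neg]; exact h1) i
      have h4 : j i ≤ 0 := hj i
      simp only [Pi.neg_apply] at h3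
      exact ⟨by linarith, by linarith⟩
  · have : Subsingleton (Fin d → ℤ) := by
      rw [not_nonempty_iff] at hd
      infer_instance
    exact Set.toFinite _

theorem st_FIB : ST_FIB := by
  classical
  intro d L gam hg U K Dh R0 hC s n p q v hS
  obtain ⟨C, hCb⟩ := hC.bess
  -- section
  choose js hjp hjq using hS.surj
  have hK : ∀ j x y, p j = x → q j = y → K j = K (js x y) := by
    intro j x y hx hy
    have hu : j - js x y ∈ U := by
      rw [hS.ker]
      simp [map_sub, hjp, hjq, hx, hy]
    have := hC.inv (js x y) _ hu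
    rw [add_sub_cancel] at this
    exact this
  -- L2 functions
  have hex : ∀ (y : Fin n → ℤ) (i : Fin d × Fin d), ∃ f : UnitAddTorus (Fin s) → ℂ,
      MemLp f 2 (tor s) ∧ (∀ x, ∫ η, mFourier x η * f η ∂(tor s) = K (js x y) i.1 i.2) ∧
      (R0 < |v y| → f = 0) := by
    intro y i
    by_cases hy : R0 < |v y|
    · refine ⟨0, MemLp.zero, fun x => ?_, fun _ => rfl⟩
      have : K (js x y) = 0 := hC.supp _ (by rw [← hS.vq, hjq]; exact hy)
      simp [this]
    · obtain ⟨f, h1, h2⟩ := fib_ex (fun x => K (js x y) i.1 i.2) C (fun S => by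
        have hinj : Function.Injective fun x => js x y := by
          intro x x' h
          have := congrArg p h
          simpa [hjp] using this
        have := hCb (S.image fun x => js x y) (by
          intro m hm m' hm' hmm
          simp only [Finset.mem_image] at hm hm'
          obtain ⟨x, _, rfl⟩ := hm
          obtain ⟨x', _, rfl⟩ := hm'
          rw [hS.ker] at hmm
          have h3 : x = x' := by
            have := hmm.1
            rw [map_sub, hjp, hjp, sub_eq_zero] at this
            exact this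
          rw [h3]) i.1 i.2
        rw [Finset.sum_image (fun x _ x' _ h => hinj h)] at this
        exact this)
      exact ⟨f, h1, h2, fun h => absurd h hy⟩
  choose kap hk2 hkc hk0 using hex
  -- finite sets of displacements
  let F : (Fin n → ℤ) → Finset (Fin d → ℤ) := fun m1 =>
    (fib_fin hg (|v m1| + R0)).toFinset
  have hF : ∀ m1 j, j ∈ F m1 ↔ |len L j| ≤ |v m1| + R0 ∧ ∃ a b, gam a b j ≠ 0 := by
    intro m1 j
    simp only [F, Set.Finite.mem_toFinset, Set.mem_ofPred_eq]
  let Dd : (Fin n → ℤ) → UnitAddTorus (Fin s) → ℂ := fun m1 η =>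
    ∑ j ∈ F m1, ∑ i : Fin d × Fin d,
      (gam i.1 i.2 j : ℂ) * (mFourier (-(p j)) η * kap (m1 - q j) i η)
  have hDm : ∀ m1, MemLp (Dd m1) 2 (tor s) := by
    intro m1
    refine memLp_finsetSum _ fun j _ => ?_
    refine memLp_finsetSum _ fun i _ => ?_
    exact (fib_mem _ (hk2 _ _)).const_mul _
  -- coefficients
  have hDc : ∀ j1 : Fin d → ℤ,
      ∫ η, mFourier (p j1) η * Dd (q j1) η ∂(tor s) = Dh j1 := by
    intro j1
    rw [← hC.rel j1]
    have h1 : ∀ η, mFourier (p j1) η * Dd (q j1) η =
        ∑ j ∈ F (q j1), ∑ i : Fin d × Fin d,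
          (gam i.1 i.2 j : ℂ) * (mFourier (p j1 - p j) η * kap (q j1 - q j) i η) := by
      intro η
      simp only [Dd, Finset.mul_sum]
      refine Finset.sum_congr rfl fun j _ => Finset.sum_congr rfl fun i _ => ?_
      rw [sub_eq_add_neg (p j1), mFourier_add]
      ring
    simp only [h1]
    rw [integral_finsetSum _ (fun j _ => integrable_finsetSum _ fun i _ =>
      (fib_int (fib_mem _ (hk2 _ _))).const_mul _)]
    have h2 : ∀ j ∈ F (q j1), ∫ η, ∑ i : Fin d × Fin d,
          (gam i.1 i.2 j : ℂ) * (mFourier (p j1 - p j) η * kap (q j1 - q j) i η) ∂(tor s) =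
        ∑ c, ∑ e, (gam c e j : ℂ) * K (j1 - j) c e := by
      intro j _
      rw [integral_finsetSum _ (fun i _ =>
        (fib_int (fib_mem _ (hk2 _ _))).const_mul _), Fintype.sum_prod_type]
      refine Finset.sum_congr rfl fun c _ => Finset.sum_congr rfl fun e _ => ?_
      rw [integral_const_mul, hkc]
      rw [hK (j1 - j) (p j1 - p j) (q j1 - q j) (map_sub _ _ _) (map_sub _ _ _)]
    rw [Finset.sum_congr rfl h2]
    symm
    apply finsum_eq_sum_of_support_subset
    intro j hj
    rw [Function.mem_support] at hj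
    rw [Finset.mem_coe, hF]
    obtain ⟨c, _, hc⟩ := Finset.exists_ne_zero_of_sum_ne_zero hj
    obtain ⟨e, _, he⟩ := Finset.exists_ne_zero_of_sum_ne_zero hc
    have h3 : gam c e j ≠ 0 := by
      intro h; rw [h] at he; simp at he
    have h4 : K (j1 - j) ≠ 0 := by
      intro h; rw [h] at he; simp at he
    refine ⟨?_, c, e, h3⟩
    have h5 : |len L (j1 - j)| ≤ R0 := by
      by_contra h
      exact h4 (hC.supp _ (not_le.mp h))
    rw [← hS.vq, map_sub, map_sub] at h5
    rw [← hS.vq j]
    have h6 : v (q j) = v (q j1) - (v (q j1) - v (q j)) := by ring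
    rw [h6]
    exact (abs_sub _ _).trans (by linarith)
  have hD1 : ∀ m1 : Fin n → ℤ, m1 ≠ 0 → ∀ᵐ η ∂(tor s), Dd m1 η = 0 := by
    intro m1 hm
    refine fib_zero (hDm m1) fun x => ?_
    have h1 := hDc (js x m1)
    rw [hjp, hjq] at h1
    rw [h1]
    apply hC.Dsupp
    rw [← hS.vq, hjq]
    intro h
    exact hm (hS.inj (by rw [h, map_zero]))
  have hD0 : ¬ ∀ᵐ η ∂(tor s), Dd 0 η = 0 := by
    intro h
    have h1 := hDc 0
    rw [map_zero, map_zero] at h1
    apply hC.D0
    rw [← h1]
    refine (integral_congr_ae (g := fun _ => (0 : ℂ)) ?_).trans (integral_zero _ _)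
    filter_upwards [h] with η hη
    simp [hη]
  have hall : ∀ᵐ η ∂(tor s), ∀ m1 : Fin n → ℤ, m1 ≠ 0 → Dd m1 η = 0 := by
    rw [ae_all_iff]
    intro m1
    by_cases hm : m1 = 0
    · exact Eventually.of_forall fun η h => absurd hm h
    · filter_upwards [hD1 m1 hm] with η hη _ using hη
  refine ⟨{η | Dd 0 η ≠ 0 ∧ ∀ m1 : Fin n → ℤ, m1 ≠ 0 → Dd m1 η = 0}, ?_, ?_⟩
  · intro h0
    apply hD0
    have h1 : ∀ᵐ η ∂(tor s), ¬ (Dd 0 η ≠ 0 ∧ ∀ m1 : Fin n → ℤ, m1 ≠ 0 → Dd m1 η = 0) := by
      rw [ae_iff]
      simpa using h0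
    filter_upwards [h1, hall] with η h2 h3
    by_contra h4
    exact h2 ⟨h4, h3⟩
  · rintro η ⟨h0, h1⟩
    refine ⟨Dd 0 η, fun m i => kap m i η, h0, ?_, ?_⟩
    · intro m hm
      funext i
      change kap m i η = 0
      rw [hk0 m i hm]; rfl
    · intro m1
      have hR : (∑ᶠ m : Fin n → ℤ, ∑ i : Fin d × Fin d,
          Bc gam p q i.1 i.2 (m1 - m) η * kap m i η) = Dd m1 η := by
        -- value of Bc
        have hB : ∀ (i : Fin d × Fin d) (m : Fin n → ℤ), |v m| ≤ R0 →
            Bc gam p q i.1 i.2 (m1 - m) = ∑ j ∈ F m1, if q j = m1 - m then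
              (gam i.1 i.2 j : ℂ) • mFourier (-(p j)) else 0 := by
          intro i m hm
          unfold Bc
          apply finsum_eq_sum_of_support_subset
          intro j hj
          rw [Function.mem_support] at hj
          rw [Finset.mem_coe, hF]
          by_cases hq : q j = m1 - m
          · rw [if_pos hq] at hj
            refine ⟨?_, i.1, i.2, ?_⟩
            · rw [← hS.vq, hq, map_sub]
              exact (abs_sub _ _).trans (by linarith)
            · intro h
              apply hj
              rw [h, Complex.ofReal_zero]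
              ext x
              rw [ContinuousMap.smul_apply, smul_eq_mul, zero_mul]
              rfl
          · rw [if_neg hq] at hj
            exact absurd rfl hj
        have hsupp : (Function.support fun m : Fin n → ℤ => ∑ i : Fin d × Fin d,
            Bc gam p q i.1 i.2 (m1 - m) η * kap m i η) ⊆
            ((F m1).image (fun j => m1 - q j) : Finset (Fin n → ℤ)) := by
          intro m hm
          rw [Function.mem_support] at hm
          obtain ⟨i, _, hi⟩ := Finset.exists_ne_zero_of_sum_ne_zero hm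
          have h2 : |v m| ≤ R0 := by
            by_contra h
            apply hi
            rw [hk0 m i (not_le.mp h)]
            simp
          have h3 : Bc gam p q i.1 i.2 (m1 - m) ≠ 0 := by
            intro h
            apply hi
            rw [h]; simp
          rw [hB i m h2] at h3
          obtain ⟨j, hj, hj2⟩ := Finset.exists_ne_zero_of_sum_ne_zero h3
          rw [Finset.mem_coe, Finset.mem_image]
          by_cases hq : q j = m1 - m
          · exact ⟨j, hj, by rw [hq]; abel⟩
          · rw [if_neg hq] at hj2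
            exact absurd rfl hj2
        rw [finsum_eq_sum_of_support_subset _ hsupp]
        have h5 : ∀ m ∈ (F m1).image (fun j => m1 - q j), ∑ i : Fin d × Fin d,
            Bc gam p q i.1 i.2 (m1 - m) η * kap m i η =
            ∑ j ∈ F m1, if m1 - q j = m then ∑ i : Fin d × Fin d,
              (gam i.1 i.2 j : ℂ) * (mFourier (-(p j)) η * kap m i η) else 0 := by
          intro m _
          by_cases hm : |v m| ≤ R0
          · have h6 : ∀ i : Fin d × Fin d, Bc gam p q i.1 i.2 (m1 - m) η * kap m i η =
                ∑ j ∈ F m1, if m1 - q j = m then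
                  (gam i.1 i.2 j : ℂ) * (mFourier (-(p j)) η * kap m i η) else 0 := by
              intro i
              rw [hB i m hm, ContinuousMap.coe_sum, Finset.sum_apply, Finset.sum_mul]
              refine Finset.sum_congr rfl fun j _ => ?_
              by_cases hq : q j = m1 - m
              · rw [if_pos hq, if_pos (by rw [hq]; abel)]
                simp [mul_assoc]
              · rw [if_neg hq, if_neg (by
                  intro h; apply hq; rw [← h]; abel)]
                simp
            rw [Finset.sum_congr rfl fun i _ => h6 i, Finset.sum_comm]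
            refine Finset.sum_congr rfl fun j _ => ?_
            by_cases hq : m1 - q j = m
            · simp [hq]
            · simp [hq]
          · have h7 : ∀ i, kap m i η = 0 := fun i => by
              rw [hk0 m i (not_le.mp hm)]; rfl
            simp [h7]
        rw [Finset.sum_congr rfl h5, Finset.sum_comm]
        simp only [Dd]
        refine Finset.sum_congr rfl fun j hj => ?_
        rw [Finset.sum_ite_eq, if_pos (Finset.mem_image_of_mem _ hj)]
      rw [hR]
      by_cases hm : m1 = 0
      · rw [if_pos hm, hm]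
      · rw [if_neg hm, h1 m1 hm]

end Pool.Agent.Helper97.FS
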